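import Pool.Agent.H902R3.XI.Stmts

set_option autoImplicit false
set_option maxHeartbeats 4000000

open Complex MeasureTheory Filter Topology Set Metric
open scoped Real ENNReal

namespace Pool.Agent.H941R3.XI
open Pool.Agent.H902R3.XI

lemma log_norm_bound {s : ℂ} {T B : ℝ} (hT : 64 ≤ T) (hL : 4 ≤ Real.log T)
    (hB : B * Real.log T ≤ T / 8)
    (h1 : |s.im - T| ≤ T / 8) (h2 : |s.re| ≤ B * Real.log T) :
    ‖a s‖ ≤ Real.log T ∧ |(a s).im| ≤ 2 := by
  have hpi := Real.pi_gt_three
  have hpi4 := Real.pi_le_four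
  have him := abs_le.mp h1
  have hre : |s.re| ≤ T / 8 := h2.trans hB
  have hns : ‖s‖ ≤ 2 * T := by
    have := Complex.norm_le_abs_re_add_abs_im s
    have h3 : |s.im| ≤ T + T / 8 := by rw [abs_le]; constructor <;> linarith
    linarith
  have hns2 : T / 2 ≤ ‖s‖ := by
    have := Complex.abs_im_le_norm s
    have h3 := le_abs_self s.im
    linarith
  have hz : ‖s / (2 * π)‖ = ‖s‖ / (2 * π) := by
    rw [norm_div]
    congr 1
    rw [norm_mul, Complex.norm_real, Real.norm_eq_abs, abs_of_pos Real.pi_pos]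
    norm_num
  have hz1 : 1 ≤ ‖s / (2 * π)‖ := by
    rw [hz, le_div_iff₀ (by positivity)]
    nlinarith
  have hz2 : ‖s / (2 * π)‖ ≤ T := by
    rw [hz, div_le_iff₀ (by positivity)]
    nlinarith
  have hre' : (log (s / (2 * π))).re = Real.log ‖s / (2 * π)‖ := Complex.log_re _
  have him' : (log (s / (2 * π))).im = arg (s / (2 * π)) := Complex.log_im _
  have h5 : |(log (s / (2 * π))).re| ≤ Real.log T := by
    rw [hre', abs_of_nonneg (Real.log_nonneg hz1)]
    exact Real.log_le_log (by linarith) hz2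
  have h6 : |(log (s / (2 * π))).im| ≤ π := by rw [him']; exact Complex.abs_arg_le_pi _
  have ha : a s = log (s / (2 * π)) / 2 := rfl
  constructor
  · rw [ha, norm_div]
    have h7 := Complex.norm_le_abs_re_add_abs_im (log (s / (2 * π)))
    have h8 : ‖(2 : ℂ)‖ = 2 := by norm_num
    rw [h8]
    linarith
  · have h9 : (a s).im = (log (s / (2 * π))).im / 2 := by
      rw [ha, show (2 : ℂ) = ((2 : ℝ) : ℂ) by norm_num, Complex.div_ofReal_im]
    rw [h9, abs_div, abs_of_pos (by norm_num : (0:ℝ) < 2)]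
    linarith

/-- completing the square -/
lemma sq_bound {τ A v : ℝ} (hτ : 0 < τ) : A * |v| - v ^ 2 / (8 * τ) ≤
    4 * τ * A ^ 2 + -(1 / (16 * τ)) * v ^ 2 := by
  have h1 : 4 * τ * A ^ 2 + -(1 / (16 * τ)) * v ^ 2 - (A * |v| - v ^ 2 / (8 * τ)) =
      (8 * τ * A - |v|) ^ 2 / (16 * τ) := by
    have h2 : v ^ 2 = |v| ^ 2 := (sq_abs v).symm
    rw [h2]
    field_simp
    ring
  have h3 : 0 ≤ (8 * τ * A - |v|) ^ 2 / (16 * τ) := by positivity
  linarith

theorem taskA4 (hA2 : TaskA2) (hG : TaskG) (hGup : TaskGup) (hGlow : TaskGlow) : TaskA4 := by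
  intro τ hτ B hB
  obtain ⟨C, hC, T1, hG'⟩ := hG (2 * B + 1) (by linarith)
  obtain ⟨T2, hGup'⟩ := hGup (2 * B + 1) (by linarith)
  obtain ⟨Cl, hCl, T3, hGlow'⟩ := hGlow (2 * B + 1) (by linarith)
  set C3 : ℝ := (B + 1) + C * (2 * (B + 1) ^ 2 + (B + 1)) + (B + 1) ^ 2 / (4 * τ) + 2 with hC3
  have hC3pos : 0 < C3 := by positivity
  set C6 : ℝ := 4 * τ * (2 + C) ^ 2 with hC6
  set D : ℝ := (4 * π * τ) ^ (-(1 / 2) : ℝ) * (Real.exp C6 * √(π / (1 / (16 * τ)))) with hD
  have hDpos : 0 < D := by positivity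
  set Z : ℝ := ∑' n : ℕ, 1 / ((n : ℝ) + 1) ^ 2 with hZ
  have hZs : Summable (fun n : ℕ => 1 / ((n : ℝ) + 1) ^ 2) := by
    have := (summable_nat_add_iff 1).mpr (Real.summable_one_div_nat_pow.mpr (by norm_num : 1 < 2))
    refine this.congr (fun n => ?_)
    push_cast
    rfl
  have hZ0 : 0 ≤ Z := tsum_nonneg (fun n => by positivity)
  refine ⟨2 * (C3 + τ + 1), by positivity, ?_⟩
  have ev1 : ∀ᶠ T : ℝ in atTop, 4 ≤ Real.log T := Real.tendsto_log_atTop.eventually_ge_atTop 4
  have ev2 : ∀ᶠ T : ℝ in atTop, Real.log T ≤ (1 / (8 * (2 * B + 1))) * T := by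
    have h1 := (Real.isLittleO_log_id_atTop).bound (by positivity : 0 < 1 / (8 * (2 * B + 1)))
    filter_upwards [h1, eventually_ge_atTop 0] with T hT hT0
    simp only [id, Real.norm_eq_abs, abs_of_nonneg hT0] at hT
    exact (le_abs_self _).trans hT
  have ev : ∀ᶠ T : ℝ in atTop, ∀ s : ℂ, |s.im - T| ≤ Real.sqrt T → |s.re| ≤ B * Real.log T →
    ∑' n : ℕ, (if 2 * (C3 + τ + 1) * Real.log T < ell n then ‖Tm τ n s‖ else 0) ≤
      T⁻¹ * ‖E τ s‖ := by
    filter_upwards [ev1, ev2, eventually_ge_atTop T1, eventually_ge_atTop T2,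
      eventually_ge_atTop T3, eventually_ge_atTop 64, eventually_ge_atTop (16 * C * τ),
      eventually_ge_atTop (128 * τ * Cl), eventually_ge_atTop (D * Z)] with
      T hL4 hLT hT1 hT2 hT3 hT64 hTC hTCl hTDZ
    intro s hsim hsre
    set Λ : ℝ := Real.log T with hΛ
    have hTpos : 0 < T := by linarith
    have hsqrt : √T ≤ T / 8 := by
      rw [Real.sqrt_le_left (by positivity)]
      nlinarith
    have hsim' : |s.im - T| ≤ T / 8 := hsim.trans hsqrt
    have hB1 : (2 * B + 1) * Λ ≤ T / 8 := by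
      calc (2 * B + 1) * Λ ≤ (2 * B + 1) * (1 / (8 * (2 * B + 1)) * T) := by gcongr
        _ = T / 8 := by field_simp
    have hB2 : B * Λ ≤ T / 8 := by nlinarith
    have hΛT : Λ ≤ T := by nlinarith
    obtain ⟨hna, hia⟩ := log_norm_bound hT64 hL4 hB2 hsim' hsre
    have him := abs_le.mp hsim'
    have hre := abs_le.mp hsre
    set c : ℝ := (B + 1) * Λ with hc
    have hcpos : 0 < c := by positivity
    have hsc : Λ ≤ s.re + c := by rw [hc]; nlinarith
    have hInR : InR (2 * B + 1) T s := by
      refine ⟨by linarith, by linarith, ?_⟩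
      rw [← hΛ]
      nlinarith
    have hglow := hGlow' T hT3 s hInR
    -- pointwise bound of the integrand of `g`
    have hpt : ∀ v : ℝ, ‖g (s + (c + v * I))‖ * Real.exp ((c ^ 2 - v ^ 2) / (4 * τ)) ≤
        ‖g s‖ * Real.exp (C3 * Λ ^ 2) * (Real.exp C6 * Real.exp (-(1 / (16 * τ)) * v ^ 2)) := by
      intro v
      have hsre' : (s + (c + v * I)).re = s.re + c := by simp
      have hsim'' : (s + (c + v * I)).im = s.im + v := by simp
      have hkey : ‖g (s + (c + v * I))‖ * Real.exp ((c ^ 2 - v ^ 2) / (4 * τ)) ≤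
          ‖g s‖ * Real.exp (C3 * Λ ^ 2 + ((2 + C) * |v| - v ^ 2 / (8 * τ))) := by
        rcases le_or_gt |v| (T / 4) with hv | hv
        · have hv' := abs_le.mp hv
          have hInR' : InR (2 * B + 1) T (s + (c + v * I)) := by
            refine ⟨by rw [hsim'']; linarith, by rw [hsim'']; linarith, ?_⟩
            rw [hsre', ← hΛ, abs_le]
            constructor
            · nlinarith
            · rw [hc]; nlinarith
          obtain ⟨e, he1, he2⟩ := hG' T hT1 s _ hInR hInR'
          rw [he1, norm_mul, Complex.norm_exp, mul_assoc, ← Real.exp_add]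
          have hd : s + (c + v * I) - s = c + v * I := by ring
          rw [hd] at he2 ⊢
          have hnd : ‖((c : ℂ) + v * I)‖ ≤ c + |v| := by
            refine (norm_add_le _ _).trans ?_
            rw [norm_mul, Complex.norm_I, mul_one, Complex.norm_real, Complex.norm_real,
              Real.norm_eq_abs, Real.norm_eq_abs, abs_of_pos hcpos]
          have hv0 := abs_nonneg v
          have hene : ‖e‖ ≤ C * (2 * c ^ 2 + c * Λ) + C * |v| + v ^ 2 / (8 * τ) := by
            refine he2.trans ?_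
            rw [← hΛ]
            have h1 : C * (‖((c : ℂ) + v * I)‖ ^ 2 + ‖((c : ℂ) + v * I)‖ * Λ) / T ≤
                C * ((c + |v|) ^ 2 + (c + |v|) * Λ) / T := by gcongr
            refine h1.trans ?_
            rw [div_le_iff₀ hTpos]
            have h2 : (c + |v|) ^ 2 ≤ 2 * c ^ 2 + 2 * v ^ 2 := by
              have := sq_abs v
              nlinarith [sq_nonneg (c - |v|)]
            have h3 : 2 * C * v ^ 2 ≤ v ^ 2 / (8 * τ) * T := by
              rw [div_mul_eq_mul_div, le_div_iff₀ (by positivity)]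
              nlinarith [sq_nonneg v]
            have h4 : |v| * Λ ≤ |v| * T := by gcongr
            have h5 : 2 * c ^ 2 ≤ 2 * c ^ 2 * T := by nlinarith [sq_nonneg c]
            have h6 : c * Λ ≤ c * Λ * T := by
              have : 0 ≤ c * Λ := by positivity
              nlinarith
            calc C * ((c + |v|) ^ 2 + (c + |v|) * Λ)
                ≤ C * ((2 * c ^ 2 + 2 * v ^ 2) + (c + |v|) * Λ) := by gcongr
              _ = C * (2 * c ^ 2 + c * Λ) + C * (|v| * Λ) + 2 * C * v ^ 2 := by ring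
              _ ≤ C * (2 * c ^ 2 * T + c * Λ * T) + C * (|v| * T) + v ^ 2 / (8 * τ) * T := by
                  gcongr
              _ = (C * (2 * c ^ 2 + c * Λ) + C * |v| + v ^ 2 / (8 * τ)) * T := by ring
          have hre1 : (((c : ℂ) + v * I) * a s + e).re ≤ c * Λ + 2 * |v| + ‖e‖ := by
            have h1 : (((c : ℂ) + v * I) * a s + e).re = c * (a s).re - v * (a s).im + e.re := by
              simp
            rw [h1]
            have h2 : (a s).re ≤ Λ := (Complex.re_le_norm _).trans hna
            have h3 : -(v * (a s).im) ≤ 2 * |v| := by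
              refine (neg_le_abs _).trans ?_
              rw [abs_mul, mul_comm]
              gcongr
            have h4 : e.re ≤ ‖e‖ := Complex.re_le_norm _
            have h5 : c * (a s).re ≤ c * Λ := by gcongr
            linarith
          refine mul_le_mul_of_nonneg_left (Real.exp_le_exp.mpr ?_) (norm_nonneg _)
          have hfin : c * Λ + C * (2 * c ^ 2 + c * Λ) + c ^ 2 / (4 * τ) + 2 * Λ ^ 2 = C3 * Λ ^ 2 := by
            rw [hC3, hc]; field_simp
          have h7 : (c ^ 2 - v ^ 2) / (4 * τ) = c ^ 2 / (4 * τ) - 2 * (v ^ 2 / (8 * τ)) := by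
            field_simp; ring
          rw [h7]
          have h8 : 0 ≤ Λ ^ 2 := sq_nonneg _
          linarith
        · have h1 : ‖g (s + (c + v * I))‖ ≤ (1 + ‖s + (c + v * I)‖) ^ 2 * Real.exp (Λ ^ 2) := by
            refine hGup' T hT2 _ ?_ ?_
            · rw [hsre']; linarith
            · rw [hsre', ← hΛ, hc]; nlinarith
          have h2 : ‖s + (c + v * I)‖ ≤ 13 * |v| := by
            refine (Complex.norm_le_abs_re_add_abs_im _).trans ?_
            rw [hsre', hsim'']
            have h3 : |s.re + c| ≤ T / 8 := by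
              rw [abs_of_nonneg (by linarith)]
              rw [hc]; nlinarith
            have h4 : |s.im + v| ≤ T + T / 8 + |v| := by
              refine (abs_add_le _ _).trans ?_
              have : |s.im| ≤ T + T / 8 := by rw [abs_le]; constructor <;> linarith
              linarith
            linarith
          have hv0 := abs_nonneg v
          have h5 : (1 + ‖s + (c + v * I)‖) ^ 2 ≤ 169 * Real.exp (2 * |v|) := by
            have h6 : 1 + |v| ≤ Real.exp |v| := by linarith [Real.add_one_le_exp |v|]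
            have h7 : Real.exp (2 * |v|) = Real.exp |v| ^ 2 := by
              rw [← Real.exp_nat_mul]; norm_num
            rw [h7]
            have h8 : 1 + ‖s + (c + v * I)‖ ≤ 13 * Real.exp |v| := by linarith
            calc (1 + ‖s + (c + v * I)‖) ^ 2 ≤ (13 * Real.exp |v|) ^ 2 := by gcongr
              _ = 169 * Real.exp |v| ^ 2 := by ring
          have h9 : (169 : ℝ) ≤ Real.exp (Λ ^ 2) := by
            have h10 : (16 : ℝ) ≤ Λ ^ 2 := by nlinarith
            have h11 : (169 : ℝ) ≤ Real.exp 16 := by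
              have h12 : (2 : ℝ) ≤ Real.exp 1 := by linarith [Real.add_one_le_exp (1 : ℝ)]
              have h13 : Real.exp 16 = Real.exp 1 ^ 16 := by
                rw [← Real.exp_nat_mul]; norm_num
              rw [h13]
              calc (169 : ℝ) ≤ 2 ^ 16 := by norm_num
                _ ≤ Real.exp 1 ^ 16 := by gcongr
            exact h11.trans (Real.exp_le_exp.mpr h10)
          have h14 : Real.exp (-(v ^ 2 / (8 * τ))) ≤ ‖g s‖ := by
            refine le_trans (Real.exp_le_exp.mpr ?_) hglow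
            have h15 : T ^ 2 / 16 ≤ v ^ 2 := by
              have := sq_abs v
              nlinarith
            have h16 : Cl * T ≤ v ^ 2 / (8 * τ) := by
              rw [le_div_iff₀ (by positivity)]
              nlinarith
            linarith
          calc ‖g (s + (c + v * I))‖ * Real.exp ((c ^ 2 - v ^ 2) / (4 * τ))
              ≤ ((169 * Real.exp (2 * |v|)) * Real.exp (Λ ^ 2)) *
                  Real.exp ((c ^ 2 - v ^ 2) / (4 * τ)) := by
                gcongr
                exact h1.trans (by gcongr)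
            _ ≤ ((Real.exp (Λ ^ 2) * Real.exp (2 * |v|)) * Real.exp (Λ ^ 2)) *
                  Real.exp ((c ^ 2 - v ^ 2) / (4 * τ)) := by gcongr
            _ = Real.exp (-(v ^ 2 / (8 * τ))) *
                Real.exp (2 * Λ ^ 2 + 2 * |v| + c ^ 2 / (4 * τ) - v ^ 2 / (8 * τ)) := by
                rw [← Real.exp_add, ← Real.exp_add, ← Real.exp_add, ← Real.exp_add]
                congr 1
                field_simp
                ring
            _ ≤ ‖g s‖ * Real.exp (C3 * Λ ^ 2 + ((2 + C) * |v| - v ^ 2 / (8 * τ))) := by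
                gcongr ?_ * Real.exp ?_
                · have h17 : c ^ 2 / (4 * τ) + 2 * Λ ^ 2 ≤ C3 * Λ ^ 2 := by
                    have h18 : C3 * Λ ^ 2 = c ^ 2 / (4 * τ) + 2 * Λ ^ 2 +
                        ((B + 1) + C * (2 * (B + 1) ^ 2 + (B + 1))) * Λ ^ 2 := by
                      rw [hC3, hc]; field_simp; ring
                    rw [h18]
                    have : 0 ≤ ((B + 1) + C * (2 * (B + 1) ^ 2 + (B + 1))) * Λ ^ 2 := by positivity
                    linarith
                  have h19 : 0 ≤ C * |v| := by positivity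
                  linarith
      refine hkey.trans ?_
      rw [mul_assoc, ← Real.exp_add, ← Real.exp_add]
      gcongr
      have := sq_bound (A := 2 + C) (v := v) hτ
      rw [hC6]
      linarith
    -- bound of each term
    have hterm : ∀ n : ℕ, ‖Tm τ n s‖ ≤
        D * (‖E τ s‖ * Real.exp ((C3 + τ) * Λ ^ 2)) * Real.exp (-(s.re + c) * ell n) := by
      intro n
      obtain ⟨-, hT⟩ := hA2 τ hτ s n c (by linarith)
      have hgE : ‖g s‖ ≤ ‖E τ s‖ * Real.exp (τ * Λ ^ 2) := by
        have h1 : ‖E τ s‖ = ‖g s‖ * Real.exp ((-τ * (a s) ^ 2 : ℂ).re) := by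
          rw [E, norm_mul, Complex.norm_exp]
        rw [h1, mul_assoc, ← Real.exp_add]
        have h2 : -(τ * Λ ^ 2) ≤ (-τ * (a s) ^ 2 : ℂ).re := by
          have h3 : |(-τ * (a s) ^ 2 : ℂ).re| ≤ ‖(-τ * (a s) ^ 2 : ℂ)‖ := Complex.abs_re_le_norm _
          have h4 : ‖(-τ * (a s) ^ 2 : ℂ)‖ = τ * ‖a s‖ ^ 2 := by
            rw [norm_mul, norm_neg, Complex.norm_real, norm_pow, Real.norm_eq_abs, abs_of_pos hτ]
          have h5 : τ * ‖a s‖ ^ 2 ≤ τ * Λ ^ 2 := by gcongr
          have h6 := neg_abs_le (-τ * (a s) ^ 2 : ℂ).re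
          linarith
        have h7 : 1 ≤ Real.exp ((-τ * (a s) ^ 2 : ℂ).re + τ * Λ ^ 2) := by
          rw [Real.one_le_exp_iff]
          linarith
        nlinarith [norm_nonneg (g s)]
      have hint : Integrable (fun v : ℝ => (‖g s‖ * Real.exp (C3 * Λ ^ 2) *
          Real.exp (-(s.re + c) * ell n)) *
          (Real.exp C6 * Real.exp (-(1 / (16 * τ)) * v ^ 2))) :=
        ((integrable_exp_neg_mul_sq (by positivity)).const_mul _).const_mul _
      have hnorm : ‖∫ v : ℝ, g (s + (c + v * I)) * cexp (-(s + (c + v * I)) * ell n) *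
          cexp ((c + v * I) ^ 2 / (4 * τ))‖ ≤
          ∫ v : ℝ, (‖g s‖ * Real.exp (C3 * Λ ^ 2) *
          Real.exp (-(s.re + c) * ell n)) *
          (Real.exp C6 * Real.exp (-(1 / (16 * τ)) * v ^ 2)) := by
        refine norm_integral_le_of_norm_le hint (Eventually.of_forall (fun v => ?_))
        have h1 : ‖cexp (-(s + (c + v * I)) * ell n)‖ = Real.exp (-(s.re + c) * ell n) := by
          rw [Complex.norm_exp]
          congr 1
          simp
        have h2 : ‖cexp ((c + v * I) ^ 2 / (4 * τ))‖ = Real.exp ((c ^ 2 - v ^ 2) / (4 * τ)) := by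
          rw [Complex.norm_exp]
          congr 1
          have h3 : ((c : ℂ) + v * I) ^ 2 / (4 * τ) =
              (((c ^ 2 - v ^ 2) / (4 * τ) : ℝ) : ℂ) + ((2 * c * v / (4 * τ) : ℝ) : ℂ) * I := by
            push_cast
            have : I ^ 2 = -1 := Complex.I_sq
            field_simp
            ring_nf
            rw [this]
            ring
          rw [h3, Complex.add_re, Complex.ofReal_re, Complex.re_ofReal_mul, Complex.I_re, mul_zero,
            add_zero]
        rw [norm_mul, norm_mul, h1, h2]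
        calc ‖g (s + (c + v * I))‖ * Real.exp (-(s.re + c) * ell n) *
              Real.exp ((c ^ 2 - v ^ 2) / (4 * τ))
            = (‖g (s + (c + v * I))‖ * Real.exp ((c ^ 2 - v ^ 2) / (4 * τ))) *
              Real.exp (-(s.re + c) * ell n) := by ring
          _ ≤ (‖g s‖ * Real.exp (C3 * Λ ^ 2) *
              (Real.exp C6 * Real.exp (-(1 / (16 * τ)) * v ^ 2))) *
              Real.exp (-(s.re + c) * ell n) :=
              mul_le_mul_of_nonneg_right (hpt v) (Real.exp_nonneg _)
          _ = _ := by ring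
      rw [hT, norm_mul, Complex.norm_real, Real.norm_eq_abs,
        abs_of_pos (by positivity : (0:ℝ) < (4 * π * τ) ^ (-(1 / 2) : ℝ))]
      have hgauss : ∫ v : ℝ, (‖g s‖ * Real.exp (C3 * Λ ^ 2) *
          Real.exp (-(s.re + c) * ell n)) *
          (Real.exp C6 * Real.exp (-(1 / (16 * τ)) * v ^ 2)) =
          (‖g s‖ * Real.exp (C3 * Λ ^ 2) * Real.exp (-(s.re + c) * ell n)) *
          (Real.exp C6 * √(π / (1 / (16 * τ)))) := by
        rw [integral_const_mul, integral_const_mul, integral_gaussian]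
      rw [hgauss] at hnorm
      calc (4 * π * τ) ^ (-(1 / 2) : ℝ) * ‖∫ v : ℝ, g (s + (c + v * I)) *
            cexp (-(s + (c + v * I)) * ell n) * cexp ((c + v * I) ^ 2 / (4 * τ))‖
          ≤ (4 * π * τ) ^ (-(1 / 2) : ℝ) * ((‖g s‖ * Real.exp (C3 * Λ ^ 2) *
            Real.exp (-(s.re + c) * ell n)) * (Real.exp C6 * √(π / (1 / (16 * τ))))) := by gcongr
        _ = D * (‖g s‖ * Real.exp (C3 * Λ ^ 2)) * Real.exp (-(s.re + c) * ell n) := by
            rw [hD]; ring
        _ ≤ D * ((‖E τ s‖ * Real.exp (τ * Λ ^ 2)) * Real.exp (C3 * Λ ^ 2)) *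
            Real.exp (-(s.re + c) * ell n) := by gcongr
        _ = D * (‖E τ s‖ * Real.exp ((C3 + τ) * Λ ^ 2)) * Real.exp (-(s.re + c) * ell n) := by
            rw [mul_assoc ‖E τ s‖, ← Real.exp_add]
            congr 4
            ring
    -- the sum
    have hell : ∀ n : ℕ, 0 ≤ ell n := by
      intro n
      exact Real.log_nonneg (by linarith [(Nat.cast_nonneg n : (0:ℝ) ≤ n)])
    have hbound : ∀ n : ℕ, (if 2 * (C3 + τ + 1) * Λ < ell n then ‖Tm τ n s‖ else 0) ≤
        (D * (‖E τ s‖ * Real.exp (-Λ ^ 2))) * (1 / ((n : ℝ) + 1) ^ 2) := by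
      intro n
      split_ifs with hn
      · refine (hterm n).trans ?_
        have h1 : (1 / ((n : ℝ) + 1) ^ 2) = Real.exp (-2 * ell n) := by
          have h2 : (0:ℝ) < (n : ℝ) + 1 := by positivity
          have h3 : Real.exp (-2 * ell n) = (Real.exp (ell n) ^ 2)⁻¹ := by
            rw [← Real.exp_nat_mul, ← Real.exp_neg]
            congr 1
            push_cast
            ring
          rw [h3, ell, Real.exp_log h2, one_div]
        rw [h1]
        have e1 : D * (‖E τ s‖ * Real.exp ((C3 + τ) * Λ ^ 2)) * Real.exp (-(s.re + c) * ell n) =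
            (D * ‖E τ s‖) * Real.exp ((C3 + τ) * Λ ^ 2 + -(s.re + c) * ell n) := by
          rw [Real.exp_add]; ring
        have e2 : D * (‖E τ s‖ * Real.exp (-Λ ^ 2)) * Real.exp (-2 * ell n) =
            (D * ‖E τ s‖) * Real.exp (-Λ ^ 2 + -2 * ell n) := by
          rw [Real.exp_add]; ring
        rw [e1, e2]
        refine mul_le_mul_of_nonneg_left (Real.exp_le_exp.mpr ?_) (by positivity)
        have h4 : Λ * ell n ≤ (s.re + c) * ell n := by
          have := hell n
          gcongr
        have h5 : (C3 + τ + 1) * Λ ^ 2 ≤ (Λ - 2) * ell n := by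
          have h6 : Λ / 2 ≤ Λ - 2 := by linarith
          have h7 : 0 ≤ 2 * (C3 + τ + 1) * Λ := by positivity
          calc (C3 + τ + 1) * Λ ^ 2 = (Λ / 2) * (2 * (C3 + τ + 1) * Λ) := by ring
            _ ≤ (Λ - 2) * ell n := by
                apply mul_le_mul h6 hn.le h7 (by linarith)
        nlinarith
      · positivity
    have hs1 : Summable (fun n : ℕ => (D * (‖E τ s‖ * Real.exp (-Λ ^ 2))) *
        (1 / ((n : ℝ) + 1) ^ 2)) := hZs.mul_left _
    have hs2 : Summable (fun n : ℕ => (if 2 * (C3 + τ + 1) * Λ < ell n then ‖Tm τ n s‖ else 0)) :=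
      Summable.of_nonneg_of_le (fun n => by split_ifs <;> positivity) hbound hs1
    refine (hs2.tsum_le_tsum hbound hs1).trans ?_
    rw [tsum_mul_left, ← hZ]
    have h1 : D * Z * Real.exp (-Λ ^ 2) ≤ T⁻¹ := by
      have h2 : T = Real.exp Λ := by rw [hΛ, Real.exp_log hTpos]
      calc D * Z * Real.exp (-Λ ^ 2) ≤ T * Real.exp (-Λ ^ 2) := by gcongr
        _ = Real.exp (Λ - Λ ^ 2) := by
            nth_rewrite 1 [h2]
            rw [← Real.exp_add]
            congr 1
        _ ≤ Real.exp (-Λ) := by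
            apply Real.exp_le_exp.mpr
            nlinarith
        _ = T⁻¹ := by rw [Real.exp_neg, ← h2]
    calc D * (‖E τ s‖ * Real.exp (-Λ ^ 2)) * Z = (D * Z * Real.exp (-Λ ^ 2)) * ‖E τ s‖ := by ring
      _ ≤ T⁻¹ * ‖E τ s‖ := by gcongr
  exact eventually_atTop.mp ev

end Pool.Agent.H941R3.XI
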